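import Mathlib

set_option autoImplicit false
open Filter Finset

namespace Pool.Agent.Results.MP_8b2777_lc.Composite

def IsSeq (N : ℕ) (a : ℕ → ℕ) : Prop := ∀ i, a i < N

def EvPeriodic (a : ℕ → ℕ) : Prop := ∃ M P : ℕ, 0 < P ∧ ∀ i, M ≤ i → a (i + P) = a i

def Represents (N : ℕ) (b : ℕ → ℕ) (u g : ℤ) : Prop :=
  IsCoprime u g ∧ IsCoprime g (N : ℤ) ∧
    ∀ k : ℕ, g * ∑ i ∈ range k, (b i : ℤ) * (N : ℤ) ^ i ≡ u [ZMOD (N : ℤ) ^ k]

noncomputable def lam (N : ℕ) (a : ℕ → ℕ) (n : ℕ) : ℝ :=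
  sInf {x : ℝ | ∃ (b : ℕ → ℕ) (u g : ℤ), IsSeq N b ∧ EvPeriodic b ∧ (∀ i < n, b i = a i) ∧
    Represents N b u g ∧ x = Real.logb N (max |(u : ℝ)| |(g : ℝ)|)}

def T (N : ℕ) (a : ℕ → ℕ) : Set ℝ := {x | MapClusterPt x atTop (fun n : ℕ => lam N a n / n)}

section
variable {p q : ℕ} (h : p.Coprime q)

private def e (k : ℕ) : ℕ := Nat.chineseRemainder (Nat.Coprime.pow k k h) 0 1

private def dig (k : ℕ) : ℕ := e h (k + 1) / (p * q) ^ k

private theorem e_p (k : ℕ) : e h k ≡ 0 [MOD p ^ k] := (Nat.chineseRemainder _ 0 1).2.1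
private theorem e_q (k : ℕ) : e h k ≡ 1 [MOD q ^ k] := (Nat.chineseRemainder _ 0 1).2.2

private theorem e_lt (hp : 0 < p) (hq : 0 < q) (k : ℕ) : e h k < (p * q) ^ k := by
  rw [mul_pow]
  exact Nat.chineseRemainder_lt_mul _ 0 1 (by positivity) (by positivity)

private theorem e_mod (hp : 0 < p) (hq : 0 < q) (k : ℕ) : e h (k + 1) % (p * q) ^ k = e h k := by
  have h1 : e h (k + 1) ≡ e h k [MOD p ^ k] :=
    ((e_p h (k + 1)).of_dvd (pow_dvd_pow p k.le_succ)).trans (e_p h k).symm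
  have h2 : e h (k + 1) ≡ e h k [MOD q ^ k] :=
    ((e_q h (k + 1)).of_dvd (pow_dvd_pow q k.le_succ)).trans (e_q h k).symm
  have h3 := (Nat.modEq_and_modEq_iff_modEq_mul (Nat.Coprime.pow k k h)).1 ⟨h1, h2⟩
  rw [← mul_pow] at h3
  exact Eq.trans h3 (Nat.mod_eq_of_lt (e_lt h hp hq k))

private theorem dig_lt (hp : 0 < p) (hq : 0 < q) (k : ℕ) : dig h k < p * q := by
  unfold dig
  rw [Nat.div_lt_iff_lt_mul (by positivity), mul_comm, ← pow_succ]
  exact e_lt h hp hq (k + 1)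

private theorem sum_dig (hp : 0 < p) (hq : 0 < q) (k : ℕ) :
    ∑ i ∈ range k, (dig h i : ℤ) * ((p * q : ℕ) : ℤ) ^ i = e h k := by
  induction k with
  | zero => have := e_lt h hp hq 0; simp at this; simp [this]
  | succ k ih =>
    rw [sum_range_succ, ih, ← e_mod h hp hq k]
    have := Nat.mod_add_div (e h (k + 1)) ((p * q) ^ k)
    unfold dig
    rw [mul_comm ((p * q) ^ k)] at this
    exact_mod_cast this

private theorem key (hq : 2 ≤ q) {k : ℕ} (hk : 0 < k) {u g : ℤ}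
    (hg : IsCoprime g ((p * q : ℕ) : ℤ))
    (hc : g * (e h k : ℤ) ≡ u [ZMOD ((p * q : ℕ) : ℤ) ^ k]) : u ≠ 0 ∧ (p : ℤ) ^ k ∣ u := by
  have d1 : (p : ℤ) ^ k ∣ ((p * q : ℕ) : ℤ) ^ k := pow_dvd_pow_of_dvd (by push_cast; simp) k
  have d2 : (q : ℤ) ∣ ((p * q : ℕ) : ℤ) ^ k :=
    dvd_trans (by push_cast; simp) (dvd_pow_self _ hk.ne')
  have e1 : (p : ℤ) ^ k ∣ (e h k : ℤ) := by
    exact_mod_cast (Nat.modEq_zero_iff_dvd).1 (e_p h k)
  have e2 : (e h k : ℤ) ≡ 1 [ZMOD (q : ℤ)] := by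
    have := ((e_q h k).of_dvd (dvd_pow_self q hk.ne'))
    exact_mod_cast Int.natCast_modEq_iff.2 this
  refine ⟨fun hu => ?_, ?_⟩
  · subst hu
    have h1 : g * 1 ≡ 0 [ZMOD (q : ℤ)] := (e2.symm.mul_left g).trans (hc.of_dvd d2)
    have h2 : (q : ℤ) ∣ g := by simpa using (Int.modEq_zero_iff_dvd).1 h1
    have h3 : IsUnit (q : ℤ) := hg.isUnit_of_dvd' h2 (by push_cast; simp)
    rw [Int.isUnit_iff] at h3
    omega
  · have := (hc.of_dvd d1).dvd
    have h2 : (p : ℤ) ^ k ∣ u - g * e h k + g * e h k := dvd_add this (Dvd.dvd.mul_left e1 g)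
    simpa using h2

private theorem not_per (hp : 2 ≤ p) (hq : 2 ≤ q) : ¬ EvPeriodic (dig h) := by
  rintro ⟨M, P, hP, hper⟩
  set N : ℤ := ((p * q : ℕ) : ℤ) with hN
  set S : ℕ → ℤ := fun k => ∑ i ∈ range k, (dig h i : ℤ) * N ^ i with hS
  have st : ∀ k, S (k + 1) = S k + (dig h k : ℤ) * N ^ k := fun k => sum_range_succ _ _
  have a1 : ∀ j, S (M + j + P) - N ^ P * S (M + j) = S (M + P) - N ^ P * S M := by
    intro j
    induction j with
    | zero => rfl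
    | succ j ih =>
      rw [show M + (j + 1) + P = (M + j + P) + 1 by ring, show M + (j + 1) = (M + j) + 1 by ring,
        st, st, hper _ (Nat.le_add_right M j), ← ih]
      ring
  have a2 : ∀ k j, N ^ k ∣ S (k + j) - S k := by
    intro k j
    induction j with
    | zero => simp
    | succ j ih =>
      rw [← add_assoc, st, add_sub_right_comm]
      exact dvd_add ih (Dvd.dvd.mul_left (pow_dvd_pow N (Nat.le_add_right k j)) _)
  set u := S (M + P) - N ^ P * S M with hu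
  have hcop : IsCoprime (1 - N ^ P) N := by
    obtain ⟨r, rfl⟩ := Nat.exists_eq_succ_of_ne_zero hP.ne'
    exact ⟨1, N ^ r, by rw [pow_succ]; ring⟩
  have a3 : ∀ j, u ≠ 0 ∧ (p : ℤ) ^ (M + (j + 1)) ∣ u := by
    intro j
    refine key h hq (by omega) hcop ?_
    rw [← sum_dig h (by omega) (by omega)]
    refine (Int.modEq_iff_dvd.2 ?_)
    have := a2 (M + (j + 1)) P
    rw [← a1 (j + 1)]
    convert this using 1
    simp only [hS]
    ring
  have b1 := Int.le_of_dvd (abs_pos.2 (a3 0).1) ((dvd_abs _ _).2 (a3 u.natAbs).2)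
  have b2 : u.natAbs < p ^ (M + (u.natAbs + 1)) :=
    lt_of_lt_of_le (by omega) (Nat.lt_pow_self (by omega : 1 < p)).le
  have b3 : (u.natAbs : ℤ) < (p : ℤ) ^ (M + (u.natAbs + 1)) := by exact_mod_cast b2
  rw [Int.natCast_natAbs] at b3
  omega

private theorem bounds (hp : 2 ≤ p) (hq : 2 ≤ q) {n : ℕ} (hn : 0 < n) :
    n * Real.logb ((p * q : ℕ) : ℝ) p ≤ lam (p * q) (dig h) n ∧ lam (p * q) (dig h) n ≤ n := by
  have hN : (1 : ℝ) < ((p * q : ℕ) : ℝ) := by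
    have : 1 < p * q := by nlinarith
    exact_mod_cast this
  have low : ∀ x ∈ {x : ℝ | ∃ (b : ℕ → ℕ) (u g : ℤ), IsSeq (p * q) b ∧ EvPeriodic b ∧
      (∀ i < n, b i = dig h i) ∧ Represents (p * q) b u g ∧
      x = Real.logb ((p * q : ℕ) : ℝ) (max |(u : ℝ)| |(g : ℝ)|)},
      n * Real.logb ((p * q : ℕ) : ℝ) p ≤ x := by
    rintro x ⟨b, u, g, -, -, hb, ⟨-, hg, hc⟩, rfl⟩
    have h1 := hc n
    rw [sum_congr rfl (fun i hi => by rw [hb i (mem_range.1 hi)]),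
      sum_dig h (by omega) (by omega)] at h1
    obtain ⟨h2, h3⟩ := key h hq hn hg h1
    have h4 := Int.le_of_dvd (abs_pos.2 h2) ((dvd_abs _ _).2 h3)
    have h5 : (p : ℝ) ^ n ≤ |(u : ℝ)| := by exact_mod_cast h4
    rw [← Real.logb_pow]
    exact Real.logb_le_logb_of_le hN (by positivity) (h5.trans (le_max_left _ _))
  have mem : Real.logb ((p * q : ℕ) : ℝ) (max |((e h n : ℤ) : ℝ)| |((1 : ℤ) : ℝ)|) ∈
      {x : ℝ | ∃ (b : ℕ → ℕ) (u g : ℤ), IsSeq (p * q) b ∧ EvPeriodic b ∧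
      (∀ i < n, b i = dig h i) ∧ Represents (p * q) b u g ∧
      x = Real.logb ((p * q : ℕ) : ℝ) (max |(u : ℝ)| |(g : ℝ)|)} := by
    refine ⟨fun i => if i < n then dig h i else 0, e h n, 1, fun i => ?_, ⟨n, 1, one_pos, ?_⟩,
      fun i hi => if_pos hi, ⟨isCoprime_one_right, isCoprime_one_left, fun k => ?_⟩, rfl⟩
    · dsimp only
      split_ifs
      · exact dig_lt h (by omega) (by omega) i
      · positivity
    · intro i hi
      simp only [if_neg (show ¬ i + 1 < n by omega), if_neg (show ¬ i < n by omega)]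
    · rw [one_mul, ← sum_dig h (by omega) (by omega)]
      have s1 : ∀ m, ∑ i ∈ range (n + m), (((if i < n then dig h i else 0 : ℕ)) : ℤ) *
          ((p * q : ℕ) : ℤ) ^ i = ∑ i ∈ range n, (dig h i : ℤ) * ((p * q : ℕ) : ℤ) ^ i := by
        intro m
        induction m with
        | zero => exact sum_congr rfl fun i hi => by rw [if_pos (mem_range.1 hi)]
        | succ m ih => rw [← add_assoc, sum_range_succ, ih, if_neg (by omega)]; simp
      rcases le_total n k with hk | hk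
      · obtain ⟨m, rfl⟩ := Nat.exists_eq_add_of_le hk
        rw [s1]
      · obtain ⟨m, rfl⟩ := Nat.exists_eq_add_of_le hk
        have s2 : ∑ i ∈ range k, (((if i < k + m then dig h i else 0 : ℕ)) : ℤ) *
            ((p * q : ℕ) : ℤ) ^ i = ∑ i ∈ range k, (dig h i : ℤ) * ((p * q : ℕ) : ℤ) ^ i :=
          sum_congr rfl fun i hi => by rw [if_pos (lt_of_lt_of_le (mem_range.1 hi) hk)]
        rw [s2, sum_range_add]
        refine Int.modEq_iff_dvd.2 ?_
        rw [add_sub_cancel_left]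
        exact dvd_sum fun i _ => Dvd.dvd.mul_left (pow_dvd_pow _ (Nat.le_add_right k i)) _
  refine ⟨le_csInf ⟨_, mem⟩ low, (csInf_le ⟨_, low⟩ mem).trans ?_⟩
  have h1 : ((e h n : ℕ) : ℝ) ≤ ((p * q : ℕ) : ℝ) ^ n := by
    exact_mod_cast (e_lt h (by omega) (by omega) n).le
  have h2 : max |((e h n : ℤ) : ℝ)| |((1 : ℤ) : ℝ)| ≤ ((p * q : ℕ) : ℝ) ^ n := by
    refine max_le ?_ ?_
    · simpa using h1
    · simpa using one_le_pow₀ hN.le
  refine (Real.logb_le_logb_of_le hN ?_ h2).trans ?_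
  · exact lt_of_lt_of_le (by simp) (le_max_right _ _)
  · rw [Real.logb_pow, Real.logb_self_eq_one hN, mul_one]

include h in
private theorem main (hq : 2 ≤ q) (hpq : q < p) :
    ∃ a, IsSeq (p * q) a ∧ ¬ EvPeriodic a ∧ (T (p * q) a).Nonempty ∧
      ∀ x ∈ T (p * q) a, 1 / 2 < x := by
  have hp : 2 ≤ p := by omega
  have ev : ∀ᶠ n : ℕ in atTop, lam (p * q) (dig h) n / n ∈
      Set.Icc (Real.logb ((p * q : ℕ) : ℝ) p) 1 := by
    filter_upwards [eventually_gt_atTop 0] with n hn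
    have := bounds h hp hq hn
    have h0 : (0 : ℝ) < n := by exact_mod_cast hn
    exact ⟨by rw [le_div_iff₀ h0]; linarith [this.1], by rw [div_le_one h0]; exact this.2⟩
  refine ⟨dig h, dig_lt h (by omega) (by omega), not_per h hp hq, ?_, fun x hx => ?_⟩
  · obtain ⟨x, -, hx⟩ := isCompact_Icc.exists_mapClusterPt (f := atTop)
      (u := fun n : ℕ => lam (p * q) (dig h) n / n) (le_principal_iff.2 ev)
    exact ⟨x, hx⟩
  · have h1 := isClosed_Icc.mem_of_mapClusterPt hx ev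
    refine lt_of_lt_of_le ?_ h1.1
    have hN : (1 : ℝ) < ((p * q : ℕ) : ℝ) := by
      have : 1 < p * q := by nlinarith
      exact_mod_cast this
    have h2 : Real.logb ((p * q : ℕ) : ℝ) ((p * q : ℕ) : ℝ) <
        Real.logb ((p * q : ℕ) : ℝ) ((p : ℝ) ^ 2) := by
      refine Real.logb_lt_logb hN (by linarith) ?_
      have : p * q < p ^ 2 := by nlinarith
      exact_mod_cast this
    rw [Real.logb_pow, Real.logb_self_eq_one hN] at h2
    push_cast at h2 ⊢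
    linarith

end

private theorem gen (N : ℕ) (hN : 2 ≤ N) (hpp : ¬ IsPrimePow N) :
    ∃ a, IsSeq N a ∧ ¬ EvPeriodic a ∧ (T N a).Nonempty ∧ ∀ x ∈ T N a, 1 / 2 < x := by
  have hr : N.minFac.Prime := Nat.minFac_prime (by omega)
  obtain ⟨k, m, hm, hk⟩ := Nat.exists_eq_pow_mul_and_not_dvd (by omega : N ≠ 0) N.minFac hr.ne_one
  have hc : (N.minFac ^ k).Coprime m := Nat.Coprime.pow_left k ((hr.coprime_iff_not_dvd).2 hm)
  have k0 : k ≠ 0 := by
    rintro rfl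
    rw [pow_zero, one_mul] at hk
    exact hm (hk ▸ Nat.minFac_dvd N)
  have h1 : 2 ≤ N.minFac ^ k := le_trans hr.two_le (Nat.le_self_pow k0 _)
  have h2 : 2 ≤ m := by
    rcases m with _ | _ | m
    · simp at hm
    · exact absurd ⟨N.minFac, k, hr.prime, Nat.pos_of_ne_zero k0, by simpa using hk.symm⟩ hpp
    · omega
  rcases lt_trichotomy m (N.minFac ^ k) with c | c | c
  · have := main hc h2 c
    rwa [← hk] at this
  · rw [← c] at hc
    have := Nat.coprime_self m |>.1 hc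
    omega
  · have := main hc.symm h1 c
    rwa [mul_comm, ← hk] at this

theorem result :
    (∀ N : ℕ, 2 ≤ N → ¬ IsPrimePow N →
      ∃ a, IsSeq N a ∧ ¬ EvPeriodic a ∧ (T N a).Nonempty ∧ (∀ x ∈ T N a, 1 / 2 < x) ∧
        ¬ ∃ B : ℝ, T N a = Set.Icc B (1 - B)) ∧
    ∃ N : ℕ, 2 ≤ N ∧ (∀ k, N ≠ 2 ^ k) ∧ (∀ k, N ≠ 3 ^ k) ∧
      ∃ a, IsSeq N a ∧ ¬ EvPeriodic a ∧ ¬ ∃ B : ℝ, T N a = Set.Icc B (1 - B) := by
  have A : ∀ N : ℕ, 2 ≤ N → ¬ IsPrimePow N →
      ∃ a, IsSeq N a ∧ ¬ EvPeriodic a ∧ (T N a).Nonempty ∧ (∀ x ∈ T N a, 1 / 2 < x) ∧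
        ¬ ∃ B : ℝ, T N a = Set.Icc B (1 - B) := by
    intro N hN hpp
    obtain ⟨a, h1, h2, h3, h4⟩ := gen N hN hpp
    refine ⟨a, h1, h2, h3, h4, ?_⟩
    rintro ⟨B, hB⟩
    obtain ⟨x, hx⟩ := h3
    rw [hB] at hx h4
    have := h4 B ⟨le_rfl, hx.1.trans hx.2⟩
    linarith [hx.1, hx.2]
  refine ⟨A, 6, by norm_num, fun k hk => ?_, fun k hk => ?_, ?_⟩
  · have : 3 ∣ 2 ^ k := hk ▸ by norm_num
    exact absurd (Nat.prime_three.dvd_of_dvd_pow this) (by norm_num)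
  · have : 2 ∣ 3 ^ k := hk ▸ by norm_num
    exact absurd (Nat.prime_two.dvd_of_dvd_pow this) (by norm_num)
  · obtain ⟨a, h1, h2, -, -, h5⟩ := A 6 (by norm_num) (by decide +kernel)
    exact ⟨a, h1, h2, h5⟩

end Pool.Agent.Results.MP_8b2777_lc.Composite
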